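import Pool.Agent.MWK.Stmts

/-! Row SFA of squad MWK (helper52) -/

set_option autoImplicit false

namespace Pool.Agent.MWK.H52

open Pool.Agent.Helper14_MV Pool.Agent.Helper2_MV

theorem pre_iff {w : List ℕ} {x y : ℕ} (hx : x ∈ w) (hxy : x ≠ y) :
    x ∈ pre w y ↔ y ∉ pre w x := by
  constructor
  · intro h
    exact pre_asymm h
  · intro h
    rcases pre_total hx hxy with h1 | h1
    · exact h1
    · exact (h h1).elim

theorem core (dag : DagStmt) (che : CheStmt) (trc : TrcStmt) {m : ℕ} {u v : List ℕ}
    (hF : Ag (FF m v) u v) {x y : ℕ} (hx : Dp (m + 1) v x) (hy : Dp (m + 1) v y)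
    (nx : ¬ Dp m v x) (ny : ¬ Dp m v y) (h1 : x ∈ pre u y) (h2 : y ∈ pre v x) :
    ∃ cs : List ℕ, cs.length = m ∧ Chc u [x, y] cs ∧ Chc v [x, y] cs := by
  cases m with
  | zero =>
    have hx1 : v.count x = 1 := by
      rcases hx with h | ⟨z, h, _⟩
      · exact h
      · exact h.elim
    have hy1 : v.count y = 1 := by
      rcases hy with h | ⟨z, h, _⟩
      · exact h
      · exact h.elim
    have hx0 := (hF.count_one x).2 hx1
    have hy0 := (hF.count_one y).2 hy1
    refine ⟨[], rfl, ?_, ?_⟩
    · intro z hz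
      simp only [List.mem_cons, List.not_mem_nil, or_false] at hz
      rcases hz with rfl | rfl
      · exact hx0
      · exact hy0
    · intro z hz
      simp only [List.mem_cons, List.not_mem_nil, or_false] at hz
      rcases hz with rfl | rfl
      · exact hx1
      · exact hy1
  | succ n =>
    have d1 : ∀ z, Dp (n + 1) u z ↔ Dp (n + 1) v z := dag (n + 1) u v hF (n + 1) (by omega)
    have d2 : ∀ z, Dp (n + 1 + 1) u z ↔ Dp (n + 1 + 1) v z :=
      dag (n + 1) u v hF (n + 1 + 1) (by omega)
    have hxu := (d2 x).2 hx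
    have hyu := (d2 y).2 hy
    have nxu : ¬ Dp (n + 1) u x := fun h => nx ((d1 x).1 h)
    have nyu : ¬ Dp (n + 1) u y := fun h => ny ((d1 y).1 h)
    have hc : ∃ c, Dp (n + 1) u c ∧ (pre u c).count x = 1 := by
      rcases hxu with h | h
      · exact (nxu (Dp.simple h)).elim
      · exact h
    have hc' : ∃ c, Dp (n + 1) u c ∧ (pre u c).count y = 1 := by
      rcases hyu with h | h
      · exact (nyu (Dp.simple h)).elim
      · exact h
    obtain ⟨c, hc1, hc2⟩ := hc
    obtain ⟨c', hc1', hc2'⟩ := hc'
    have hcv := (d1 c).1 hc1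
    have hyc : y ∈ pre u c := by
      have e1 : x ∈ pre u c := mem_pre_of_count hc2
      have e2 : x ∈ pre v c := (hF.mem_pre (y := c) (x := x) hcv).1 e1
      have e3 : y ∈ pre v c := pre_trans h2 e2
      exact (hF.mem_pre (y := c) (x := y) hcv).2 e3
    have hxc' : x ∈ pre u c' := pre_trans h1 (mem_pre_of_count hc2')
    have hs : ∃ s, Dp (n + 1) u s ∧ (pre u s).count x = 1 ∧ (pre u s).count y = 1 := by
      by_cases hcc : c = c'
      · subst hcc
        exact ⟨c, hc1, hc2, hc2'⟩
      · rcases pre_total hc1.mem hcc with h | h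
        · refine ⟨c, hc1, hc2, ?_⟩
          have e1 := count_pre_mono h y
          have e2 : 0 < (pre u c).count y := List.count_pos_iff.2 hyc
          omega
        · refine ⟨c', hc1', ?_, hc2'⟩
          have e1 := count_pre_mono h x
          have e2 : 0 < (pre u c').count x := List.count_pos_iff.2 hxc'
          omega
    obtain ⟨s, hs1, hs2, hs3⟩ := hs
    have hs4 : ¬ Dp n u s := fun h => nxu (Dp.step h hs2)
    obtain ⟨cs, hl, hch, hdp⟩ := che n u s hs1 hs4
    have hCu : Chc u [x, y] (s :: cs) := by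
      refine ⟨?_, hs1.mem, hch⟩
      intro z hz
      simp only [List.mem_cons, List.not_mem_nil, or_false] at hz
      rcases hz with rfl | rfl
      · exact hs2
      · exact hs3
    refine ⟨s :: cs, by simp [hl], hCu, ?_⟩
    refine trc (n + 1) u v hF (s :: cs) [x, y] ?_ hCu
    intro z hz
    rcases List.mem_cons.1 hz with rfl | hz'
    · exact (d1 _).1 hs1
    · exact (d1 z).1 (Dp.mono (hdp z hz'))

theorem sfa (dag : DagStmt) (che : CheStmt) (trc : TrcStmt) : SfaStmt := by
  intro m u v hF hB
  have key : ∃ y x, Dp (m + 1) v y ∧ Dp (m + 1) v x ∧ ¬ (x ∈ pre u y ↔ x ∈ pre v y) := by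
    by_contra hcon
    apply hB
    refine ⟨hF.1, ?_⟩
    intro y x i hi h
    rcases h with h | ⟨ha, hb, hc⟩
    · exact hF.2 y x i hi h
    · subst hc
      have h3 : x ∈ pre u y ↔ x ∈ pre v y := by
        by_contra h4
        exact hcon ⟨y, x, ha, hb, h4⟩
      rw [← List.count_pos_iff, ← List.count_pos_iff] at h3
      constructor
      · intro h5
        have := h3.1 (by omega)
        omega
      · intro h5
        have := h3.2 (by omega)
        omega
  obtain ⟨y, x, hy, hx, hd⟩ := key
  have hxy : x ≠ y := by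
    rintro rfl
    apply hd
    constructor
    · intro h
      exact (not_mem_pre u x h).elim
    · intro h
      exact (not_mem_pre v x h).elim
  have hyv : y ∈ v := hy.mem
  have hxv : x ∈ v := hx.mem
  have hyu : y ∈ u := (hF.mem y).2 hyv
  have hxu : x ∈ u := (hF.mem x).2 hxv
  have ny : ¬ Dp m v y := by
    intro h
    exact hd (hF.mem_pre (y := y) (x := x) h)
  have nx : ¬ Dp m v x := by
    intro h
    apply hd
    have h1 : y ∈ pre u x ↔ y ∈ pre v x := hF.mem_pre (y := x) (x := y) h
    rw [pre_iff hxu hxy, pre_iff hxv hxy, h1]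
  by_cases h1 : x ∈ pre u y
  · have h2 : x ∉ pre v y := by
      intro h2
      exact hd ⟨fun _ => h2, fun _ => h1⟩
    have h3 : y ∈ pre v x := by
      rcases pre_total hxv hxy with h | h
      · exact (h2 h).elim
      · exact h
    obtain ⟨cs, hl, hu, hv⟩ := core dag che trc hF hx hy nx ny h1 h3
    exact ⟨x, y, cs, hl, h1, h3, hyu, hxv, hu, hv⟩
  · have h2 : x ∈ pre v y := by
      by_contra h2
      exact hd ⟨fun h => (h1 h).elim, fun h => (h2 h).elim⟩
    have h3 : y ∈ pre u x := by
      rcases pre_total hxu hxy with h | h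
      · exact (h1 h).elim
      · exact h
    obtain ⟨cs, hl, hu, hv⟩ := core dag che trc hF hy hx ny nx h3 h2
    exact ⟨y, x, cs, hl, h3, h2, hxu, hyv, hu, hv⟩

end Pool.Agent.MWK.H52
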